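import Pool.Agent.Helper17.SA.St4

/-!
# Project SA, module HN8: property HitIn for the alternating group of degree 8
-/

set_option autoImplicit false

open scoped Pointwise

namespace Pool.Agent.Helper91.SA

open Equiv Pool.Agent.Helper17.SA

/-- the general counting argument -/
theorem two_elems {S : Type} [Group S] [Finite S] (V V' : Subgroup S) (n0 : S) (hrg : Rg V' V n0)
    {ι : Type} [Fintype ι] (H : ι → Subgroup S) (c : ι → S) (j : ι)
    (hsum : ∑ i, bad (H i) + Nat.card (H j) * Nat.card (H j) < Nat.card V' * Nat.card V) :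
    ∃ n n' : S, InD V' V n0 n ∧ InD V' V n0 n' ∧ (∀ i, ¬ Bad (H i) (c i * n)) ∧
      (∀ i, ¬ Bad (H i) (c i * n')) ∧ ∀ a ∈ H j, ∀ b ∈ H j, c j * n' ≠ a * (c j * n) * b := by
  classical
  have : Fintype S := Fintype.ofFinite S
  obtain ⟨D, hD⟩ : ∃ D : Finset S, D = (Finset.univ : Finset (V' × V)).image
    (fun ab => (ab.1 : S) * n0 * (ab.2 : S)) := ⟨_, rfl⟩
  have hDc : D.card = Nat.card V' * Nat.card V := by
    rw [hD, Finset.card_image_of_injective, Finset.card_univ, Fintype.card_prod,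
      Nat.card_eq_fintype_card, Nat.card_eq_fintype_card]
    rintro ⟨a, b⟩ ⟨a', b'⟩ h
    have h' : (a : S) * n0 * (b : S) = (a' : S) * n0 * (b' : S) := h
    have h1 : n0 * ((b' : S) * (b : S)⁻¹) * n0⁻¹ = (a' : S)⁻¹ * (a : S) := by
      have e : (a' : S)⁻¹ * ((a : S) * n0 * (b : S)) * (b : S)⁻¹ * n0⁻¹ =
          (a' : S)⁻¹ * ((a' : S) * n0 * (b' : S)) * (b : S)⁻¹ * n0⁻¹ := by rw [h']
      have e1 : (a' : S)⁻¹ * ((a : S) * n0 * (b : S)) * (b : S)⁻¹ * n0⁻¹ = (a' : S)⁻¹ * (a : S) := by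
        group
      have e2 : (a' : S)⁻¹ * ((a' : S) * n0 * (b' : S)) * (b : S)⁻¹ * n0⁻¹ =
          n0 * ((b' : S) * (b : S)⁻¹) * n0⁻¹ := by
        group
      rw [← e1, e, e2]
    have h2 := hrg ((b' : S) * (b : S)⁻¹) (V.mul_mem b'.2 (V.inv_mem b.2)) (by
      rw [h1]
      exact V'.mul_mem (V'.inv_mem a'.2) a.2)
    have h3 : (b' : S) = b := mul_inv_eq_one.mp h2
    rw [h2, mul_one, mul_inv_cancel] at h1
    have h4 : (a' : S) = a := by
      have := h1.symm
      rw [inv_mul_eq_one] at this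
      exact this
    rw [Prod.mk.injEq]
    exact ⟨Subtype.ext h4.symm, Subtype.ext h3.symm⟩
  have hDm : ∀ n ∈ D, InD V' V n0 n := by
    intro n hn
    rw [hD, Finset.mem_image] at hn
    obtain ⟨⟨a, b⟩, _, h⟩ := hn
    exact ⟨a, a.2, b, b.2, h.symm⟩
  obtain ⟨B, hB⟩ : ∃ B : Finset S, B = (Finset.univ : Finset ι).biUnion
    (fun i => Finset.univ.filter (fun n => Bad (H i) (c i * n))) := ⟨_, rfl⟩
  have hBc : B.card ≤ ∑ i, bad (H i) := by
    rw [hB]
    refine le_trans Finset.card_biUnion_le (Finset.sum_le_sum fun i _ => ?_)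
    unfold bad
    rw [Nat.card_eq_fintype_card, Fintype.card_subtype]
    refine Finset.card_le_card_of_injOn (fun n => c i * n) ?_ ?_
    · intro n hn
      simp only [Finset.coe_filter, Finset.mem_univ, true_and, Set.mem_ofPred_eq] at hn ⊢
      exact hn
    · intro x _ y _ h
      exact mul_left_cancel h
  have hBn : ∀ n, n ∉ B → ∀ i, ¬ Bad (H i) (c i * n) := by
    intro n hn i hb
    apply hn
    rw [hB, Finset.mem_biUnion]
    exact ⟨i, Finset.mem_univ _, by rw [Finset.mem_filter]; exact ⟨Finset.mem_univ _, hb⟩⟩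
  obtain ⟨n, hn1, hn2⟩ : ∃ n ∈ D, n ∉ B :=
    Finset.exists_mem_notMem_of_card_lt_card (by omega)
  obtain ⟨E, hE⟩ : ∃ E : Finset S, E = (Finset.univ : Finset (H j × H j)).image
    (fun ab => (c j)⁻¹ * ((ab.1 : S) * (c j * n) * (ab.2 : S))) := ⟨_, rfl⟩
  have hEc : E.card ≤ Nat.card (H j) * Nat.card (H j) := by
    rw [hE]
    refine le_trans Finset.card_image_le ?_
    rw [Finset.card_univ, Fintype.card_prod, Nat.card_eq_fintype_card]
  obtain ⟨n', hn1', hn2'⟩ : ∃ n' ∈ D, n' ∉ B ∪ E := by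
    apply Finset.exists_mem_notMem_of_card_lt_card
    have := Finset.card_union_le B E
    omega
  rw [Finset.mem_union, not_or] at hn2'
  refine ⟨n, n', hDm n hn1, hDm n' hn1', hBn n hn2, hBn n' hn2'.1, ?_⟩
  intro a ha b hb h
  apply hn2'.2
  rw [hE, Finset.mem_image]
  refine ⟨(⟨a, ha⟩, ⟨b, hb⟩), Finset.mem_univ _, ?_⟩
  show (c j)⁻¹ * (a * (c j * n) * b) = n'
  rw [← h, inv_mul_cancel_left]

theorem card8 : Nat.card (alternatingGroup (Fin 8)) = 20160 := by
  have : Nontrivial (Fin 8) := Fin.nontrivial_iff_two_le.2 (by omega)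
  have h : 2 * Nat.card (alternatingGroup (Fin 8)) = Nat.factorial 8 := by
    rw [Nat.card_eq_fintype_card, two_mul_card_alternatingGroup, Fintype.card_perm,
      Fintype.card_fin]
  have h8f : Nat.factorial 8 = 40320 := by decide
  omega

theorem card_V (V : Sylow 2 (alternatingGroup (Fin 8))) :
    64 ≤ Nat.card (V : Subgroup (alternatingGroup (Fin 8))) := by
  have : Fact (Nat.Prime 2) := ⟨by norm_num⟩
  rw [Sylow.card_eq_multiplicity, card8]
  have h : 6 ≤ Nat.factorization 20160 2 := by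
    rw [← Nat.Prime.pow_dvd_iff_le_factorization (by norm_num) (by norm_num)]
    norm_num
  calc 64 = 2 ^ 6 := by norm_num
    _ ≤ 2 ^ (Nat.factorization 20160 2) := Nat.pow_le_pow_right (by norm_num) h

theorem pow_bd (q k : ℕ) (hq : q.Prime) (hq2 : q ≠ 2) (h : q ^ k ∣ 20160) : q ^ k ≤ 9 := by
  rcases Nat.eq_zero_or_pos k with hk | hk
  · subst hk; norm_num
  have hqd : q ∣ 20160 := dvd_trans (dvd_pow_self q (by omega)) h
  have hcases : q = 3 ∨ q = 5 ∨ q = 7 := by
    have e : (20160 : ℕ) = 2 ^ 6 * (3 ^ 2 * (5 * 7)) := by norm_num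
    rw [e, hq.dvd_mul, hq.dvd_mul, hq.dvd_mul] at hqd
    rcases hqd with h1 | h1 | h1 | h1
    · exact absurd ((Nat.prime_dvd_prime_iff_eq hq (by norm_num)).mp (hq.dvd_of_dvd_pow h1)) hq2
    · exact Or.inl ((Nat.prime_dvd_prime_iff_eq hq (by norm_num)).mp (hq.dvd_of_dvd_pow h1))
    · exact Or.inr (Or.inl ((Nat.prime_dvd_prime_iff_eq hq (by norm_num)).mp h1))
    · exact Or.inr (Or.inr ((Nat.prime_dvd_prime_iff_eq hq (by norm_num)).mp h1))
  rcases hcases with rfl | rfl | rfl
  · by_contra hc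
    have h3 : 3 ≤ k := by
      by_contra hk3
      have : k ≤ 2 := by omega
      have := Nat.pow_le_pow_right (n := 3) (by norm_num) this
      omega
    have := dvd_trans (pow_dvd_pow 3 h3) h
    norm_num at this
  · by_contra hc
    have h3 : 2 ≤ k := by
      by_contra hk3
      have : k ≤ 1 := by omega
      have := Nat.pow_le_pow_right (n := 5) (by norm_num) this
      omega
    have := dvd_trans (pow_dvd_pow 5 h3) h
    norm_num at this
  · by_contra hc
    have h3 : 2 ≤ k := by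
      by_contra hk3
      have : k ≤ 1 := by omega
      have := Nat.pow_le_pow_right (n := 7) (by norm_num) this
      omega
    have := dvd_trans (pow_dvd_pow 7 h3) h
    norm_num at this

theorem card_H (q : ℕ) (hq : q.Prime) (hq2 : q ≠ 2) (P : Sylow q (alternatingGroup (Fin 8))) :
    Nat.card (P : Subgroup (alternatingGroup (Fin 8))) ≤ 9 := by
  have : Fact q.Prime := ⟨hq⟩
  have h := Subgroup.card_subgroup_dvd_card (P : Subgroup (alternatingGroup (Fin 8)))
  rw [card8] at h
  rw [Sylow.card_eq_multiplicity, card8] at h ⊢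
  exact pow_bd q _ hq hq2 h

/-- bounds for the primes from the first moment -/
theorem bnd (hBW : StBW) (p N m : ℕ) (R : ℕ → ℕ → ℕ) (H : Subgroup (Perm (Fin m)))
    (hp : p.Prime) (hG : Good p N R) (hN : m / p ≤ N) (hH : IsPGroup p H) (c : ℕ)
    (hc : p - 1 = c) (hc0 : 0 < c) : bad H ≤ W R p m / c := by
  have h := hBW.1 p N m R H hp hG hN hH
  rw [hc] at h
  rw [Nat.le_div_iff_mul_le hc0, Nat.mul_comm]
  exact h

/-- the image in the symmetric group -/
def im (m : ℕ) {q : ℕ} (P : Sylow q (alternatingGroup (Fin m))) : Subgroup (Perm (Fin m)) :=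
  (P : Subgroup (alternatingGroup (Fin m))).map (alternatingGroup (Fin m)).subtype

theorem im_isPGroup (m : ℕ) {q : ℕ} (P : Sylow q (alternatingGroup (Fin m))) :
    IsPGroup q (im m P) := P.isPGroup'.map _

theorem im_isPGroup_of (m : ℕ) {q : ℕ} (P : Sylow q (alternatingGroup (Fin m))) (r : ℕ)
    (h : q = r) : IsPGroup r (im m P) := h ▸ im_isPGroup m P

theorem pHN8 : StTR → StTOT → StBW → StGDT → StGDX → StNSM → StHN8 := by
  intro hTR hTOT hBW hGDT hGDX hNSM
  intro V V' n0 hrg ι _ p hp hinj hp2 H c j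
  classical
  have : Fintype ι := Fintype.ofFinite ι
  have p3 : Nat.Prime 3 := by norm_num
  have p5 : Nat.Prime 5 := by norm_num
  have p7 : Nat.Prime 7 := by norm_num
  have htr : ∀ i, 2 * bad (H i : Subgroup (alternatingGroup (Fin 8))) ≤ bad (im 8 (H i)) :=
    fun i => hTR 8 (p i) (H i) (by omega) (hp i)
  have ht := hTOT 8 ι p (fun i => im 8 (H i)) 0
      (W A3 3 8 / 2) (W (RT 5) 5 8 / 4) (W (RT 7) 7 8 / 6) hp hinj (fun i => im_isPGroup 8 (H i))
      (fun i hi => absurd hi (hp2 i))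
      (fun i hi => by
        have h := im_isPGroup_of 8 (H i) 3 hi
        exact bnd hBW 3 7 8 A3 _ p3 hGDX.2 (by norm_num) h 2 rfl (by norm_num))
      (fun i hi => by
        have h := im_isPGroup_of 8 (H i) 5 hi
        exact bnd hBW 5 (8 / 5) 8 (RT 5) _ p5 (hGDT 5 _ p5) le_rfl h 4 rfl (by norm_num))
      (fun i hi => by
        have h := im_isPGroup_of 8 (H i) 7 hi
        exact bnd hBW 7 (8 / 7) 8 (RT 7) _ p7 (hGDT 7 _ p7) le_rfl h 6 rfl (by norm_num))
  have hod := hNSM.2.2.1.2.1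
  unfold odds at hod
  have hodd : 2 * ∑ i, bad (H i : Subgroup (alternatingGroup (Fin 8))) < 4096 := by
    calc 2 * ∑ i, bad (H i : Subgroup (alternatingGroup (Fin 8)))
        = ∑ i, 2 * bad (H i : Subgroup (alternatingGroup (Fin 8))) := Finset.mul_sum _ _ _
      _ ≤ ∑ i, bad (im 8 (H i)) := Finset.sum_le_sum (fun i _ => htr i)
      _ ≤ _ := ht
      _ < 4096 := by
        have : (4 : ℕ) ^ 6 = 4096 := by norm_num
        omega
  have hV := card_V V
  have hV' := card_V V'
  have hH := card_H (p j) (hp j) (hp2 j) (H j)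
  have h1 : 64 * 64 ≤ Nat.card (V' : Subgroup (alternatingGroup (Fin 8))) *
      Nat.card (V : Subgroup (alternatingGroup (Fin 8))) := Nat.mul_le_mul hV' hV
  have h2 : Nat.card (H j : Subgroup (alternatingGroup (Fin 8))) *
      Nat.card (H j : Subgroup (alternatingGroup (Fin 8))) ≤ 9 * 9 := Nat.mul_le_mul hH hH
  obtain ⟨n, n', a1, a2, a3, a4, a5⟩ := two_elems (V : Subgroup (alternatingGroup (Fin 8)))
    (V' : Subgroup (alternatingGroup (Fin 8))) n0 hrg
    (fun i => (H i : Subgroup (alternatingGroup (Fin 8)))) c j (by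
      show ∑ i, bad (H i : Subgroup (alternatingGroup (Fin 8))) +
        Nat.card (H j : Subgroup (alternatingGroup (Fin 8))) *
        Nat.card (H j : Subgroup (alternatingGroup (Fin 8))) < _
      omega)
  exact ⟨n, n', a1, a2, a3, a4, a5⟩

end Pool.Agent.Helper91.SA
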